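import Mathlib

/-!
# MP_842e08_an : the condition `B_r` improves itself, and `A_p ∩ B_{λp/2}`
-/

set_option autoImplicit false

open MeasureTheory Set
open scoped ENNReal

namespace Pool.Agent.Results.MP_842e08_an.SelfImprovement

/-- A weight on the line: nonnegative, measurable and locally integrable. -/
def IsWeight (U : ℝ → ℝ) : Prop := (∀ x, 0 ≤ U x) ∧ Measurable U ∧ LocallyIntegrable U

/-- `U ∈ A_r`: the Muckenhoupt condition over all intervals with centre `c` and length `h`. -/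
def InA (r : ℝ) (U : ℝ → ℝ) : Prop :=
  ∃ C : ℝ, 0 ≤ C ∧ ∀ c h : ℝ, 0 < h →
    (ENNReal.ofReal h⁻¹ * ∫⁻ x in Icc (c - h / 2) (c + h / 2), ENNReal.ofReal (U x)) *
      (ENNReal.ofReal h⁻¹ * ∫⁻ x in Icc (c - h / 2) (c + h / 2),
        (ENNReal.ofReal (U x)) ^ (-1 / (r - 1))) ^ (r - 1) ≤ ENNReal.ofReal C

/-- `U ∈ B_r`: `∫ |I|^{r-1} U / (|I|^r + |x - x_I|^r) ≤ (C / |I|) ∫_I U` for every interval `I` with
centre `x_I = c` and length `|I| = h`. -/
def InB (r : ℝ) (U : ℝ → ℝ) : Prop :=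
  ∃ C : ℝ, 0 ≤ C ∧ ∀ c h : ℝ, 0 < h →
    ∫⁻ x, ENNReal.ofReal (h ^ (r - 1) * U x / (h ^ r + |x - c| ^ r)) ≤
      ENNReal.ofReal (C / h) * ∫⁻ x in Icc (c - h / 2) (c + h / 2), ENNReal.ofReal (U x)

/-- The Poisson integral. -/
noncomputable def poisson (f : ℝ → ℝ) (z y : ℝ) : ℝ :=
  Real.pi⁻¹ * ∫ x, y * f (z - x) / (x ^ 2 + y ^ 2)

/-- `|∇ f(z,y)|²`. -/
noncomputable def gradSq (f : ℝ → ℝ) (z y : ℝ) : ℝ :=
  (deriv (fun z' => poisson f z' y) z) ^ 2 + (deriv (fun y' => poisson f z y') y) ^ 2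

/-- The function `g_λ^*`, with values in `[0,∞]`. -/
noncomputable def gstar (lam : ℝ) (f : ℝ → ℝ) (x : ℝ) : ℝ≥0∞ :=
  (∫⁻ z, ∫⁻ y in Ioi (0 : ℝ),
    ENNReal.ofReal ((y / (|x - z| + y)) ^ lam * gradSq f z y)) ^ ((1 : ℝ) / 2)

/-- The weighted inequality `(∗)` of the problem. -/
def Star (lam p : ℝ) (U : ℝ → ℝ) : Prop :=
  ∃ C : ℝ, 0 ≤ C ∧ ∀ f : ℝ → ℝ, Measurable f →
    ∫⁻ x, ENNReal.ofReal (|f x| ^ p * U x) ≠ ⊤ →
    ∫⁻ x, (gstar lam f x) ^ p * ENNReal.ofReal (U x) ≤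
      ENNReal.ofReal C * ∫⁻ x, ENNReal.ofReal (|f x| ^ p * U x)

section Self

variable {U : ℝ → ℝ}

/-- the function `F(t) = ∫ U / (t^r + |x-c|^r)` -/
noncomputable def F (U : ℝ → ℝ) (r c t : ℝ) : ℝ≥0∞ :=
  ∫⁻ x, ENNReal.ofReal (U x / (t ^ r + |x - c| ^ r))

/-- the mass of the interval with centre `c` and length `t` -/
noncomputable def mass (U : ℝ → ℝ) (c t : ℝ) : ℝ≥0∞ :=
  ∫⁻ x in Icc (c - t / 2) (c + t / 2), ENNReal.ofReal (U x)

lemma mass_ne_top (hU : IsWeight U) (c t : ℝ) : mass U c t ≠ ⊤ := by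
  have h := hU.2.2.integrableOn_isCompact (isCompact_Icc (a := c - t / 2) (b := c + t / 2))
  have h2 := h.2
  rw [hasFiniteIntegral_iff_ofReal (Filter.Eventually.of_forall hU.1)] at h2
  exact h2.ne

lemma F_le {r C : ℝ} (hU : IsWeight U) (hB : ∀ c h : ℝ, 0 < h →
    ∫⁻ x, ENNReal.ofReal (h ^ (r - 1) * U x / (h ^ r + |x - c| ^ r)) ≤
      ENNReal.ofReal (C / h) * ∫⁻ x in Icc (c - h / 2) (c + h / 2), ENNReal.ofReal (U x))
    (c t : ℝ) (ht : 0 < t) :
    F U r c t ≤ ENNReal.ofReal (C / t ^ r) * mass U c t := by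
  have h := hB c t ht
  have hp : 0 < t ^ (r - 1) := Real.rpow_pos_of_pos ht _
  have hpr : 0 < t ^ r := Real.rpow_pos_of_pos ht _
  have h1 : ∫⁻ x, ENNReal.ofReal (t ^ (r - 1) * U x / (t ^ r + |x - c| ^ r)) =
      ENNReal.ofReal (t ^ (r - 1)) * F U r c t := by
    unfold F
    rw [← lintegral_const_mul]
    · refine lintegral_congr fun x => ?_
      rw [← ENNReal.ofReal_mul hp.le, mul_div_assoc]
    · have := hU.2.1
      fun_prop
  rw [h1] at h
  have h2 : F U r c t = ENNReal.ofReal ((t ^ (r - 1))⁻¹) *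
      (ENNReal.ofReal (t ^ (r - 1)) * F U r c t) := by
    rw [← mul_assoc, ← ENNReal.ofReal_mul (by positivity), inv_mul_cancel₀ hp.ne',
      ENNReal.ofReal_one, one_mul]
  rw [h2]
  refine (mul_le_mul_right h _).trans ?_
  rw [← mul_assoc, ← ENNReal.ofReal_mul (by positivity)]
  apply le_of_eq
  congr 2
  rw [Real.rpow_sub_one ht.ne']
  field_simp

lemma drop {r : ℝ} (hr : 1 < r) (hU : IsWeight U) (c t : ℝ) (ht : 0 < t) :
    F U r c (2 * t) + ENNReal.ofReal (1 / (8 * t ^ r)) * mass U c t ≤ F U r c t := by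
  have hpr : 0 < t ^ r := Real.rpow_pos_of_pos ht _
  have hm := hU.2.1
  have e1 : ENNReal.ofReal (1 / (8 * t ^ r)) * mass U c t =
      ∫⁻ x, (Icc (c - t / 2) (c + t / 2)).indicator
        (fun x => ENNReal.ofReal (U x / (8 * t ^ r))) x := by
    rw [lintegral_indicator measurableSet_Icc]
    unfold mass
    rw [← lintegral_const_mul _ (by fun_prop)]
    refine lintegral_congr fun x => ?_
    rw [← ENNReal.ofReal_mul (by positivity)]
    congr 1
    ring
  rw [e1]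
  unfold F
  rw [← lintegral_add_left (by fun_prop)]
  refine lintegral_mono fun x => ?_
  have hx0 := hU.1 x
  have ha : 0 ≤ |x - c| ^ r := Real.rpow_nonneg (abs_nonneg _) _
  have h2t : (2 * t) ^ r = 2 ^ r * t ^ r := Real.mul_rpow (by norm_num) ht.le
  have h2r : (2 : ℝ) ≤ 2 ^ r := by
    calc (2 : ℝ) = 2 ^ (1 : ℝ) := (Real.rpow_one 2).symm
      _ ≤ 2 ^ r := Real.rpow_le_rpow_of_exponent_le (by norm_num) hr.le
  by_cases hx : x ∈ Icc (c - t / 2) (c + t / 2)
  · rw [indicator_of_mem hx]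
    rw [← ENNReal.ofReal_add (by positivity) (by positivity)]
    apply ENNReal.ofReal_le_ofReal
    have hxc : |x - c| ≤ t := by
      rw [abs_le]; constructor <;> linarith [hx.1, hx.2]
    have hb : |x - c| ^ r ≤ t ^ r := Real.rpow_le_rpow (abs_nonneg _) hxc (by linarith)
    rw [h2t]
    set a := |x - c| ^ r
    set T := t ^ r
    set w := (2 : ℝ) ^ r
    have key : 1 / (w * T + a) + 1 / (8 * T) ≤ 1 / (T + a) := by
      rw [div_add_div _ _ (by positivity) (by positivity), div_le_div_iff₀ (by positivity)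
        (by positivity)]
      have h1 : 0 ≤ a := ha
      have h2 : 0 ≤ (w - 2) := by linarith
      have h3 : 0 ≤ T - a := by linarith
      nlinarith [mul_nonneg h2 (mul_nonneg hpr.le h3), mul_nonneg h1 h3, mul_nonneg hpr.le h3,
        mul_nonneg h2 (mul_nonneg hpr.le hpr.le), mul_pos hpr hpr, mul_nonneg hpr.le h1]
    calc U x / (w * T + a) + U x / (8 * T) = U x * (1 / (w * T + a) + 1 / (8 * T)) := by ring
      _ ≤ U x * (1 / (T + a)) := mul_le_mul_of_nonneg_left key hx0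
      _ = U x / (T + a) := by ring
  · rw [indicator_of_notMem hx, add_zero]
    apply ENNReal.ofReal_le_ofReal
    apply div_le_div_of_nonneg_left hx0 (by positivity)
    rw [h2t]
    nlinarith

lemma decay {r C : ℝ} (hr : 1 < r) (hU : IsWeight U) (hC : 1 ≤ C)
    (hB : ∀ c t : ℝ, 0 < t → F U r c t ≤ ENNReal.ofReal (C / t ^ r) * mass U c t)
    (c t : ℝ) (ht : 0 < t) :
    F U r c (2 * t) ≤ ENNReal.ofReal (1 - 1 / (8 * C)) * F U r c t := by
  have hpr : 0 < t ^ r := Real.rpow_pos_of_pos ht _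
  have hF : F U r c t ≠ ⊤ :=
    ne_top_of_le_ne_top (ENNReal.mul_ne_top ENNReal.ofReal_ne_top (mass_ne_top hU c t)) (hB c t ht)
  have h1 := drop hr hU c t ht
  have h2 : ENNReal.ofReal (1 / (8 * C)) * F U r c t ≤
      ENNReal.ofReal (1 / (8 * t ^ r)) * mass U c t := by
    refine (mul_le_mul_right (hB c t ht) _).trans ?_
    rw [← mul_assoc, ← ENNReal.ofReal_mul (by positivity)]
    apply le_of_eq
    congr 2
    field_simp
  have h3 : F U r c (2 * t) + ENNReal.ofReal (1 / (8 * C)) * F U r c t ≤ F U r c t :=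
    (add_le_add_right h2 _).trans h1
  have h8 : 1 / (8 * C) ≤ 1 := by
    rw [div_le_one (by positivity)]; linarith
  have h4 : F U r c t = ENNReal.ofReal (1 - 1 / (8 * C)) * F U r c t +
      ENNReal.ofReal (1 / (8 * C)) * F U r c t := by
    rw [← add_mul, ← ENNReal.ofReal_add (by linarith) (by positivity)]
    simp
  rw [h4] at h3
  have h5 : ENNReal.ofReal (1 / (8 * C)) * F U r c t ≠ ⊤ :=
    ENNReal.mul_ne_top ENNReal.ofReal_ne_top hF
  have h6 : F U r c (2 * t) + ENNReal.ofReal (1 / (8 * C)) * F U r c t ≤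
      ENNReal.ofReal (1 - 1 / (8 * C)) * F U r c t +
      ENNReal.ofReal (1 / (8 * C)) * F U r c t := by
    rw [← h4] at h3
    calc _ ≤ F U r c t := h3
      _ = _ := h4
  exact (ENNReal.add_le_add_iff_right h5).1 h6

lemma decay_pow {r C : ℝ} (hr : 1 < r) (hU : IsWeight U) (hC : 1 ≤ C)
    (hB : ∀ c t : ℝ, 0 < t → F U r c t ≤ ENNReal.ofReal (C / t ^ r) * mass U c t)
    (c t : ℝ) (ht : 0 < t) (k : ℕ) :
    F U r c (2 ^ k * t) ≤ ENNReal.ofReal ((1 - 1 / (8 * C)) ^ k) * F U r c t := by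
  have h8 : 1 / (8 * C) ≤ 1 := by
    rw [div_le_one (by positivity)]; linarith
  induction k with
  | zero => simp
  | succ k ih =>
    have h := decay hr hU hC hB c (2 ^ k * t) (by positivity)
    rw [show (2 : ℝ) ^ (k + 1) * t = 2 * (2 ^ k * t) by ring]
    refine h.trans ((mul_le_mul_right ih _).trans ?_)
    rw [← mul_assoc, ← ENNReal.ofReal_mul (by linarith)]
    apply le_of_eq
    congr 2
    ring

/-- pointwise domination of the `q`-kernel by the dyadic superposition of `r`-kernels -/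
lemma kernel_le {q r : ℝ} (hq : 0 < q) (hqr : q < r) (t a : ℝ) (ht : 0 < t) (ha : 0 ≤ a) :
    ∃ k : ℕ, 1 / (t ^ q + a ^ q) ≤
      2 ^ (q + 1) * (2 ^ k * t) ^ (r - q) / ((2 ^ k * t) ^ r + a ^ r) := by
  have hr : 0 < r := hq.trans hqr
  by_cases hat : a ≤ t
  · refine ⟨0, ?_⟩
    rw [pow_zero, one_mul]
    have h1 : 0 ≤ a ^ q := Real.rpow_nonneg ha _
    have h2 : 0 < t ^ q := Real.rpow_pos_of_pos ht _
    have h3 : 0 < t ^ r := Real.rpow_pos_of_pos ht _
    have h4 : a ^ r ≤ t ^ r := Real.rpow_le_rpow ha hat hr.le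
    have h5 : 0 ≤ a ^ r := Real.rpow_nonneg ha _
    have h6 : (2 : ℝ) ≤ 2 ^ (q + 1) := by
      calc (2 : ℝ) = 2 ^ (1 : ℝ) := (Real.rpow_one 2).symm
        _ ≤ 2 ^ (q + 1) := Real.rpow_le_rpow_of_exponent_le (by norm_num) (by linarith)
    rw [div_le_div_iff₀ (by positivity) (by positivity), one_mul]
    have h7 : t ^ (r - q) * t ^ q = t ^ r := by
      rw [← Real.rpow_add ht]; congr 1; ring
    have h8 : 0 < t ^ (r - q) := Real.rpow_pos_of_pos ht _
    calc t ^ r + a ^ r ≤ 2 * t ^ r := by linarith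
      _ = 2 * (t ^ (r - q) * t ^ q) := by rw [h7]
      _ ≤ 2 ^ (q + 1) * (t ^ (r - q) * t ^ q) := mul_le_mul_of_nonneg_right h6 (by positivity)
      _ ≤ 2 ^ (q + 1) * (t ^ (r - q) * (t ^ q + a ^ q)) := by
        apply mul_le_mul_of_nonneg_left _ (by positivity)
        apply mul_le_mul_of_nonneg_left _ h8.le
        linarith
      _ = 2 ^ (q + 1) * t ^ (r - q) * (t ^ q + a ^ q) := by ring
  · rw [not_le] at hat
    have ha' : 0 < a := ht.trans hat
    have hex : ∃ k : ℕ, a ≤ 2 ^ k * t := by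
      obtain ⟨k, hk⟩ := pow_unbounded_of_one_lt (a / t) (one_lt_two)
      refine ⟨k, ?_⟩
      rw [div_lt_iff₀ ht] at hk
      exact hk.le
    classical
    set k := Nat.find hex with hk
    have hk1 : a ≤ 2 ^ k * t := Nat.find_spec hex
    have hk0 : k ≠ 0 := by
      intro h0
      rw [h0, pow_zero, one_mul] at hk1
      linarith
    obtain ⟨j, hj⟩ := Nat.exists_eq_succ_of_ne_zero hk0
    have hk2 : 2 ^ j * t < a := by
      have : ¬ a ≤ 2 ^ j * t := Nat.find_min hex (by omega)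
      linarith
    refine ⟨k, ?_⟩
    set s := (2 : ℝ) ^ k * t with hs
    have hs0 : 0 < s := by positivity
    have hs2 : s < 2 * a := by
      have : s = 2 * (2 ^ j * t) := by rw [hs, hj, Nat.succ_eq_add_one]; ring
      linarith
    have h2 : 0 < t ^ q := Real.rpow_pos_of_pos ht _
    have haq : 0 < a ^ q := Real.rpow_pos_of_pos ha' _
    have har : 0 < a ^ r := Real.rpow_pos_of_pos ha' _
    have hsr : 0 < s ^ r := Real.rpow_pos_of_pos hs0 _
    have h4 : a ^ r ≤ s ^ r := Real.rpow_le_rpow ha hk1 hr.le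
    have h8 : 0 < s ^ (r - q) := Real.rpow_pos_of_pos hs0 _
    have h7 : s ^ (r - q) * s ^ q = s ^ r := by
      rw [← Real.rpow_add hs0]; congr 1; ring
    have h9 : s ^ q ≤ 2 ^ q * a ^ q := by
      rw [← Real.mul_rpow (by norm_num) ha]
      exact Real.rpow_le_rpow hs0.le hs2.le hq.le
    have h10 : (2 : ℝ) ^ (q + 1) = 2 * 2 ^ q := by
      rw [Real.rpow_add_one (by norm_num)]; ring
    rw [div_le_div_iff₀ (by positivity) (by positivity), one_mul]
    calc s ^ r + a ^ r ≤ 2 * s ^ r := by linarith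
      _ = 2 * (s ^ (r - q) * s ^ q) := by rw [h7]
      _ ≤ 2 * (s ^ (r - q) * (2 ^ q * a ^ q)) := by
        apply mul_le_mul_of_nonneg_left _ (by norm_num)
        exact mul_le_mul_of_nonneg_left h9 h8.le
      _ = 2 ^ (q + 1) * s ^ (r - q) * a ^ q := by rw [h10]; ring
      _ ≤ 2 ^ (q + 1) * s ^ (r - q) * (t ^ q + a ^ q) := by
        apply mul_le_mul_of_nonneg_left _ (by positivity)
        linarith

lemma F_q_le {q r C : ℝ} (hr : 1 < r) (hq : 0 < q) (hqr : q < r) (hU : IsWeight U) (hC : 1 ≤ C)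
    (hB : ∀ c t : ℝ, 0 < t → F U r c t ≤ ENNReal.ofReal (C / t ^ r) * mass U c t)
    (hθ : 2 ^ (r - q) * (1 - 1 / (8 * C)) < 1) (c t : ℝ) (ht : 0 < t) :
    F U q c t ≤ ENNReal.ofReal (2 ^ (q + 1) * t ^ (r - q) *
      (1 - 2 ^ (r - q) * (1 - 1 / (8 * C)))⁻¹) * F U r c t := by
  have h8 : 1 / (8 * C) < 1 := by
    rw [div_lt_one (by positivity)]; linarith
  have hm := hU.2.1
  set θ := 2 ^ (r - q) * (1 - 1 / (8 * C)) with hθd
  have hθ0 : 0 ≤ θ := mul_nonneg (Real.rpow_nonneg (by norm_num) _) (by linarith)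
  have step : ∀ x, ENNReal.ofReal (U x / (t ^ q + |x - c| ^ q)) ≤
      ∑' k : ℕ, ENNReal.ofReal (2 ^ (q + 1) * (2 ^ k * t) ^ (r - q)) *
        ENNReal.ofReal (U x / ((2 ^ k * t) ^ r + |x - c| ^ r)) := by
    intro x
    obtain ⟨k, hk⟩ := kernel_le hq hqr t |x - c| ht (abs_nonneg _)
    refine le_trans ?_ (ENNReal.le_tsum k)
    have hx0 := hU.1 x
    have hpos : 0 ≤ 2 ^ (q + 1) * (2 ^ k * t) ^ (r - q) := by positivity
    rw [← ENNReal.ofReal_mul hpos]
    apply ENNReal.ofReal_le_ofReal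
    calc U x / (t ^ q + |x - c| ^ q) = U x * (1 / (t ^ q + |x - c| ^ q)) := by ring
      _ ≤ U x * (2 ^ (q + 1) * (2 ^ k * t) ^ (r - q) / ((2 ^ k * t) ^ r + |x - c| ^ r)) :=
        mul_le_mul_of_nonneg_left hk hx0
      _ = _ := by ring
  have h1 : F U q c t ≤ ∑' k : ℕ, ENNReal.ofReal (2 ^ (q + 1) * (2 ^ k * t) ^ (r - q)) *
      F U r c (2 ^ k * t) := by
    unfold F
    refine (lintegral_mono step).trans ?_
    rw [lintegral_tsum (fun k => by fun_prop)]
    refine ENNReal.tsum_le_tsum fun k => ?_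
    rw [lintegral_const_mul _ (by fun_prop)]
  refine h1.trans ?_
  have h2 : ∀ k : ℕ, ENNReal.ofReal (2 ^ (q + 1) * (2 ^ k * t) ^ (r - q)) *
      F U r c (2 ^ k * t) ≤ ENNReal.ofReal (2 ^ (q + 1) * t ^ (r - q)) * F U r c t *
        ENNReal.ofReal θ ^ k := by
    intro k
    refine (mul_le_mul_right (decay_pow hr hU hC hB c t ht k) _).trans ?_
    rw [← ENNReal.ofReal_pow hθ0, mul_assoc, mul_comm (F U r c t), ← mul_assoc, ← mul_assoc,
      ← ENNReal.ofReal_mul (by positivity), ← ENNReal.ofReal_mul (by positivity)]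
    apply le_of_eq
    congr 2
    rw [hθd, mul_pow, Real.mul_rpow (by positivity) ht.le, ← Real.rpow_natCast (2 ^ (r - q)) k,
      ← Real.rpow_mul (by norm_num), ← Real.rpow_natCast 2 k, ← Real.rpow_mul (by norm_num),
      mul_comm (r - q) (k : ℝ)]
    ring
  refine (ENNReal.tsum_le_tsum h2).trans ?_
  rw [ENNReal.tsum_mul_left, ENNReal.tsum_geometric]
  have h3 : (1 - ENNReal.ofReal θ)⁻¹ = ENNReal.ofReal ((1 - θ)⁻¹) := by
    rw [ENNReal.ofReal_inv_of_pos (by linarith), ENNReal.ofReal_sub _ hθ0, ENNReal.ofReal_one]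
  rw [h3]
  apply le_of_eq
  rw [mul_right_comm, ← ENNReal.ofReal_mul (by positivity)]

end Self

/-- **Self-improvement**: a weight in `B_r`, `r > 1`, belongs to `B_q` for all `q < r` close to
`r`. -/
theorem self_improvement (U : ℝ → ℝ) (hU : IsWeight U) (r : ℝ) (hr : 1 < r) (hB : InB r U) :
    ∃ q₀ : ℝ, 1 < q₀ ∧ q₀ < r ∧ ∀ q : ℝ, q₀ ≤ q → q ≤ r → InB q U := by
  obtain ⟨C₀, hC₀, hB₀⟩ := hB
  set C : ℝ := max C₀ 1 with hCd
  have hC : 1 ≤ C := le_max_right _ _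
  have hB1 : ∀ c t : ℝ, 0 < t → F U r c t ≤ ENNReal.ofReal (C / t ^ r) * mass U c t := by
    intro c t ht
    refine (F_le hU hB₀ c t ht).trans ?_
    gcongr
    exact le_max_left _ _
  have h8 : 0 < 1 / (8 * C) := by positivity
  have h8' : 1 / (8 * C) < 1 := by
    rw [div_lt_one (by positivity)]; linarith
  -- choose q₀
  have hcont : Filter.Tendsto (fun q : ℝ => (2 : ℝ) ^ (r - q) * (1 - 1 / (8 * C)))
      (nhdsWithin r (Iio r)) (nhds ((2 : ℝ) ^ (r - r) * (1 - 1 / (8 * C)))) := by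
    apply Filter.Tendsto.mono_left _ nhdsWithin_le_nhds
    apply ContinuousAt.tendsto
    apply ContinuousAt.mul _ continuousAt_const
    apply ContinuousAt.rpow continuousAt_const (by fun_prop)
    left; norm_num
  rw [sub_self, Real.rpow_zero, one_mul] at hcont
  have hev : ∀ᶠ q in nhdsWithin r (Iio r), (2 : ℝ) ^ (r - q) * (1 - 1 / (8 * C)) < 1 :=
    hcont.eventually (Iio_mem_nhds (by linarith))
  have hev2 : ∀ᶠ q in nhdsWithin r (Iio r), 1 < q :=
    (Filter.Eventually.filter_mono nhdsWithin_le_nhds (Ioi_mem_nhds hr))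
  obtain ⟨q₀, ⟨hq1, hq2⟩, hq3⟩ := ((hev.and hev2).and self_mem_nhdsWithin).exists
  refine ⟨q₀, hq2, hq3, fun q hq hqr => ?_⟩
  rcases eq_or_lt_of_le hqr with rfl | hqr'
  · exact ⟨C₀, hC₀, hB₀⟩
  have hθ : (2 : ℝ) ^ (r - q) * (1 - 1 / (8 * C)) < 1 := by
    refine lt_of_le_of_lt ?_ hq1
    apply mul_le_mul_of_nonneg_right _ (by linarith)
    exact Real.rpow_le_rpow_of_exponent_le (by norm_num) (by linarith)
  have hq0 : 0 < q := by linarith
  set K : ℝ := (1 - 2 ^ (r - q) * (1 - 1 / (8 * C)))⁻¹ with hK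
  have hK0 : 0 < K := inv_pos.2 (by linarith)
  refine ⟨2 ^ (q + 1) * K * C, by positivity, fun c h hh => ?_⟩
  have hm := hU.2.1
  have hp : 0 < h ^ (q - 1) := Real.rpow_pos_of_pos hh _
  have e1 : ∫⁻ x, ENNReal.ofReal (h ^ (q - 1) * U x / (h ^ q + |x - c| ^ q)) =
      ENNReal.ofReal (h ^ (q - 1)) * F U q c h := by
    unfold F
    rw [← lintegral_const_mul _ (by fun_prop)]
    refine lintegral_congr fun x => ?_
    rw [← ENNReal.ofReal_mul hp.le, mul_div_assoc]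
  rw [e1]
  refine (mul_le_mul_right ((F_q_le hr hq0 hqr' hU hC hB1 hθ c h hh).trans
    (mul_le_mul_right (hB1 c h hh) _)) _).trans ?_
  change _ ≤ _ * mass U c h
  rw [← mul_assoc, ← mul_assoc, ← ENNReal.ofReal_mul (by positivity),
    ← ENNReal.ofReal_mul (by positivity)]
  apply le_of_eq
  congr 2
  have e2 : h ^ (q - 1) * (2 ^ (q + 1) * h ^ (r - q) * K) * (C / h ^ r) =
      2 ^ (q + 1) * K * C * (h ^ (q - 1) * h ^ (r - q) / h ^ r) := by ring
  rw [e2]
  have e3 : h ^ (q - 1) * h ^ (r - q) / h ^ r = h⁻¹ := by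
    rw [← Real.rpow_add hh, ← Real.rpow_sub hh, ← Real.rpow_neg_one]
    congr 1; ring
  rw [e3]
  ring

/-- The classes increase with the exponent: `B_q ⊆ B_r` for `0 < q ≤ r`. -/
theorem inB_mono (U : ℝ → ℝ) (hU : IsWeight U) (q r : ℝ) (hq : 0 < q) (hqr : q ≤ r)
    (hB : InB q U) : InB r U := by
  obtain ⟨C, hC, hB⟩ := hB
  refine ⟨2 * C, by positivity, fun c h hh => ?_⟩
  have hm := hU.2.1
  have hr : 0 < r := hq.trans_le hqr
  have key : ∀ x, ENNReal.ofReal (h ^ (r - 1) * U x / (h ^ r + |x - c| ^ r)) ≤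
      ENNReal.ofReal 2 * ENNReal.ofReal (h ^ (q - 1) * U x / (h ^ q + |x - c| ^ q)) := by
    intro x
    rw [← ENNReal.ofReal_mul (by norm_num)]
    apply ENNReal.ofReal_le_ofReal
    have hx0 := hU.1 x
    set a := |x - c| with ha
    have ha0 : 0 ≤ a := abs_nonneg _
    have haq : 0 ≤ a ^ q := Real.rpow_nonneg ha0 _
    have har : 0 ≤ a ^ r := Real.rpow_nonneg ha0 _
    have hhq : 0 < h ^ q := Real.rpow_pos_of_pos hh _
    have hhr : 0 < h ^ r := Real.rpow_pos_of_pos hh _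
    have k1 : h ^ r / (h ^ r + a ^ r) ≤ 2 * (h ^ q / (h ^ q + a ^ q)) := by
      by_cases hat : a ≤ h
      · have h4 : a ^ q ≤ h ^ q := Real.rpow_le_rpow ha0 hat hq.le
        rw [mul_div_assoc', div_le_div_iff₀ (by positivity) (by positivity)]
        nlinarith [mul_nonneg hhr.le haq, mul_nonneg hhq.le har, mul_pos hhr hhq,
          mul_nonneg hhr.le (sub_nonneg.2 h4)]
      · rw [not_le] at hat
        have ha' : 0 < a := hh.trans hat
        have haq' : 0 < a ^ q := Real.rpow_pos_of_pos ha' _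
        have hsplit : ∀ s : ℝ, 0 < s → s ^ r = s ^ q * s ^ (r - q) := by
          intro s hs
          rw [← Real.rpow_add hs]; congr 1; ring
        have hd : h ^ (r - q) ≤ a ^ (r - q) := Real.rpow_le_rpow hh.le hat.le (by linarith)
        have hd0 : 0 < h ^ (r - q) := Real.rpow_pos_of_pos hh _
        have hhle : h ^ q ≤ a ^ q := Real.rpow_le_rpow hh.le hat.le hq.le
        rw [mul_div_assoc', div_le_div_iff₀ (by positivity) (by positivity), hsplit h hh,
          hsplit a ha']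
        nlinarith [mul_nonneg (mul_nonneg hhq.le haq) (sub_nonneg.2 hd),
          mul_nonneg (mul_nonneg hhq.le hd0.le) (sub_nonneg.2 hhle),
          mul_pos (mul_pos hhq hd0) haq', mul_pos (mul_pos hhq hd0) hhq]
    have k2 : h ^ (r - 1) * U x / (h ^ r + a ^ r) = h⁻¹ * U x * (h ^ r / (h ^ r + a ^ r)) := by
      rw [Real.rpow_sub_one hh.ne']; field_simp
    have k3 : h ^ (q - 1) * U x / (h ^ q + a ^ q) = h⁻¹ * U x * (h ^ q / (h ^ q + a ^ q)) := by
      rw [Real.rpow_sub_one hh.ne']; field_simp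
    rw [k2, k3]
    calc h⁻¹ * U x * (h ^ r / (h ^ r + a ^ r)) ≤ h⁻¹ * U x * (2 * (h ^ q / (h ^ q + a ^ q))) :=
          mul_le_mul_of_nonneg_left k1 (by positivity)
      _ = _ := by ring
  refine (lintegral_mono key).trans ?_
  rw [lintegral_const_mul _ (by fun_prop)]
  refine (mul_le_mul_right (hB c h hh) _).trans ?_
  rw [← mul_assoc, ← ENNReal.ofReal_mul (by norm_num)]
  apply le_of_eq
  congr 2
  ring

/-- **Main theorem.** (1) For every weight, `B_r` with `r > 1` implies `B_q` for all `q` in some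
interval `[q₀, r]`, `1 < q₀ < r`.  (2) For `1 < λ ≤ 2`, `2/λ < p < 2`: a weight lies in
`A_p ∩ B_{λp/2}` if and only if it lies in `A_p ∩ B_q` for some `1 < q < min(λp/2, λ)`.
(3) Hence, granted the sufficient condition of Strömberg and Torchinsky and the necessary condition
(both listed as known in the problem file, here hypotheses), `(∗)` holds for a weight `U` if and
only if `U ∈ A_p ∩ B_{λp/2}`. -/
theorem result :
    (∀ U : ℝ → ℝ, IsWeight U → ∀ r : ℝ, 1 < r → InB r U →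
      ∃ q₀ : ℝ, 1 < q₀ ∧ q₀ < r ∧ ∀ q : ℝ, q₀ ≤ q → q ≤ r → InB q U) ∧
    (∀ lam p : ℝ, 1 < lam → lam ≤ 2 → 2 / lam < p → p < 2 →
      (∀ U : ℝ → ℝ, IsWeight U → ((InA p U ∧ InB (lam * p / 2) U) ↔
        ∃ q : ℝ, 1 < q ∧ q < min (lam * p / 2) lam ∧ InA p U ∧ InB q U)) ∧
      ((∀ U : ℝ → ℝ, IsWeight U →
          ∀ q : ℝ, 1 < q → q < min (lam * p / 2) lam → InA p U → InB q U → Star lam p U) →
        (∀ U : ℝ → ℝ, IsWeight U → Star lam p U → InA p U ∧ InB (lam * p / 2) U) →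
        ∀ U : ℝ → ℝ, IsWeight U → (Star lam p U ↔ InA p U ∧ InB (lam * p / 2) U))) := by
  refine ⟨self_improvement, fun lam p h1 h2 h3 h4 => ?_⟩
  have hr : 1 < lam * p / 2 := by
    rw [div_lt_iff₀ (by linarith)] at h3
    linarith
  have hmin : min (lam * p / 2) lam = lam * p / 2 := min_eq_left (by nlinarith)
  have key : ∀ U : ℝ → ℝ, IsWeight U → ((InA p U ∧ InB (lam * p / 2) U) ↔
        ∃ q : ℝ, 1 < q ∧ q < min (lam * p / 2) lam ∧ InA p U ∧ InB q U) := by
    intro U hU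
    constructor
    · rintro ⟨hA, hB⟩
      obtain ⟨q₀, hq1, hq2, hq3⟩ := self_improvement U hU _ hr hB
      exact ⟨q₀, hq1, by rw [hmin]; exact hq2, hA, hq3 q₀ le_rfl hq2.le⟩
    · rintro ⟨q, hq1, hq2, hA, hB⟩
      rw [hmin] at hq2
      exact ⟨hA, inB_mono U hU q _ (by linarith) hq2.le hB⟩
  refine ⟨key, fun hST hN U hU => ⟨fun h => hN U hU h, fun h => ?_⟩⟩
  obtain ⟨q, hq1, hq2, hA, hB⟩ := (key U hU).1 h
  exact hST U hU q hq1 hq2 hA hB

end Pool.Agent.Results.MP_842e08_an.SelfImprovement
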